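import Mathlib

/-!
# Commuting `H`-polar decompositions of an `H`-indecomposable matrix
-/

set_option autoImplicit false

open Matrix Module

namespace Pool.Agent.Results.MP_d7084b_al.CommutingFactorUnique

variable {n : ℕ}

/-- The `H`-adjoint `M^[*] = H⁻¹ M* H`. -/
noncomputable def adj (H M : Matrix (Fin n) (Fin n) ℂ) : Matrix (Fin n) (Fin n) ℂ :=
  H⁻¹ * Mᴴ * H

/-- The indefinite inner product `[x, y] = ⟨H x, y⟩ = (H x)* y`. -/
noncomputable def form (H : Matrix (Fin n) (Fin n) ℂ) (x y : Fin n → ℂ) : ℂ :=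
  star (H *ᵥ x) ⬝ᵥ y

/-- `X = U A` with `U` `H`-unitary, `A` `H`-selfadjoint and `U A = A U`. -/
def IsCommutingPolar (X H U A : Matrix (Fin n) (Fin n) ℂ) : Prop :=
  adj H U * U = 1 ∧ adj H A = A ∧ X = U * A ∧ U * A = A * U

/-- The restriction of `[·,·]` to `W` is nondegenerate. -/
def NondegenerateOn (H : Matrix (Fin n) (Fin n) ℂ) (W : Submodule ℂ (Fin n → ℂ)) : Prop :=
  ∀ x ∈ W, (∀ y ∈ W, form H x y = 0) → x = 0

/-- `X` is `H`-decomposable: some `H`-nondegenerate subspace `0 ≠ W ≠ ℂⁿ` is invariant under `X`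
and `X^[*]`. -/
def IsDecomposable (X H : Matrix (Fin n) (Fin n) ℂ) : Prop :=
  ∃ W : Submodule ℂ (Fin n → ℂ), W ≠ ⊥ ∧ W ≠ ⊤ ∧ NondegenerateOn H W ∧
    (∀ x ∈ W, X *ᵥ x ∈ W) ∧ ∀ x ∈ W, adj H X *ᵥ x ∈ W

/-! ### the form -/

section Form

variable (H : Matrix (Fin n) (Fin n) ℂ)

lemma form_add_left (x x' y : Fin n → ℂ) : form H (x + x') y = form H x y + form H x' y := by
  simp [form, Matrix.mulVec_add, add_dotProduct]

lemma form_add_right (x y y' : Fin n → ℂ) : form H x (y + y') = form H x y + form H x y' := by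
  simp [form, dotProduct_add]

lemma form_smul_left (a : ℂ) (x y : Fin n → ℂ) : form H (a • x) y = star a * form H x y := by
  simp [form, Matrix.mulVec_smul, smul_dotProduct]

lemma form_smul_right (a : ℂ) (x y : Fin n → ℂ) : form H x (a • y) = a * form H x y := by
  simp [form, dotProduct_smul]

lemma form_zero_left (y : Fin n → ℂ) : form H 0 y = 0 := by simp [form]

lemma form_zero_right (x : Fin n → ℂ) : form H x 0 = 0 := by simp [form]

lemma form_mulVec_left (hH : H.IsHermitian) (hdet : IsUnit H.det) (M : Matrix (Fin n) (Fin n) ℂ)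
    (x y : Fin n → ℂ) : form H (M *ᵥ x) y = form H x (adj H M *ᵥ y) := by
  have h1 : H * (H⁻¹ * Mᴴ * H) = Mᴴ * H := by
    rw [← mul_assoc, ← mul_assoc, Matrix.mul_nonsing_inv _ hdet, one_mul]
  rw [form, form, adj, Matrix.star_mulVec, Matrix.star_mulVec, Matrix.star_mulVec, hH.eq,
    ← Matrix.dotProduct_mulVec, ← Matrix.dotProduct_mulVec, ← Matrix.dotProduct_mulVec,
    Matrix.mulVec_mulVec, Matrix.mulVec_mulVec, h1]

lemma eq_zero_of_form (hdet : IsUnit H.det) (x : Fin n → ℂ)
    (h : ∀ y, form H x y = 0) : x = 0 := by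
  have h1 : star (H *ᵥ x) = 0 := by
    apply dotProduct_eq_zero
    intro w
    exact h w
  have h2 : H *ᵥ x = 0 := by
    rw [← star_star (H *ᵥ x), h1, star_zero]
  have h3 : H⁻¹ *ᵥ (H *ᵥ x) = x := by
    rw [Matrix.mulVec_mulVec, Matrix.nonsing_inv_mul _ hdet, Matrix.one_mulVec]
  rw [← h3, h2, Matrix.mulVec_zero]

end Form

/-- the operator of a matrix -/
noncomputable def op (M : Matrix (Fin n) (Fin n) ℂ) : End ℂ (Fin n → ℂ) := toLin' M

lemma op_apply (M : Matrix (Fin n) (Fin n) ℂ) (x : Fin n → ℂ) : op M x = M *ᵥ x := toLin'_apply M x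

lemma op_mul (M N : Matrix (Fin n) (Fin n) ℂ) : op (M * N) = op M * op N := toLin'_mul M N

lemma op_eq_zero (M : Matrix (Fin n) (Fin n) ℂ) (h : op M = 0) : M = 0 :=
  toLin'.map_eq_zero_iff.1 h

/-! ### root subspaces -/

lemma form_root (H : Matrix (Fin n) (Fin n) ℂ) (u : End ℂ (Fin n → ℂ))
    (hu : ∀ x y, form H (u x) (u y) = form H x y) (a b : ℂ) (hab : star a * b ≠ 1) :
    ∀ k l : ℕ, ∀ x y, ((u - algebraMap ℂ _ a) ^ k) x = 0 → ((u - algebraMap ℂ _ b) ^ l) y = 0 →
      form H x y = 0 := by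
  intro k
  induction k with
  | zero =>
    intro l x y hx _
    rw [pow_zero] at hx
    have : x = 0 := hx
    rw [this, form_zero_left]
  | succ k ihk =>
    intro l
    induction l with
    | zero =>
      intro x y _ hy
      rw [pow_zero] at hy
      have : y = 0 := hy
      rw [this, form_zero_right]
    | succ l ihl =>
      intro x y hx hy
      set x' := (u - algebraMap ℂ _ a) x with hx'
      set y' := (u - algebraMap ℂ _ b) y with hy'
      have hx0 : ((u - algebraMap ℂ _ a) ^ k) x' = 0 := by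
        rw [hx', ← Module.End.mul_apply, ← pow_succ]
        exact hx
      have hy0 : ((u - algebraMap ℂ _ b) ^ l) y' = 0 := by
        rw [hy', ← Module.End.mul_apply, ← pow_succ]
        exact hy
      have h1 : u x = x' + a • x := by
        rw [hx', LinearMap.sub_apply, Module.algebraMap_end_apply, sub_add_cancel]
      have h2 : u y = y' + b • y := by
        rw [hy', LinearMap.sub_apply, Module.algebraMap_end_apply, sub_add_cancel]
      have h3 := hu x y
      have h4 : form H x' y' = 0 := ihk (l + 1) x' y' hx0 (by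
        rw [pow_succ', Module.End.mul_apply, hy0, map_zero])
      have h5 : form H x' y = 0 := ihk (l + 1) x' y hx0 hy
      have h6 : form H x y' = 0 := ihl x y' hx hy0
      rw [h1, h2, form_add_left, form_add_right, form_add_right, form_smul_left, form_smul_left,
        form_smul_right, form_smul_right, h4, h5, h6] at h3
      have h7 : (star a * b - 1) * form H x y = 0 := by
        linear_combination h3
      rcases mul_eq_zero.1 h7 with h8 | h8
      · exact absurd (sub_eq_zero.1 h8) hab
      · exact h8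

lemma form_maxGen (H : Matrix (Fin n) (Fin n) ℂ) (u : End ℂ (Fin n → ℂ))
    (hu : ∀ x y, form H (u x) (u y) = form H x y) (a b : ℂ) (hab : star a * b ≠ 1)
    (x y : Fin n → ℂ) (hx : x ∈ u.maxGenEigenspace a) (hy : y ∈ u.maxGenEigenspace b) :
    form H x y = 0 := by
  rw [Module.End.mem_maxGenEigenspace] at hx hy
  obtain ⟨k, hk⟩ := hx
  obtain ⟨l, hl⟩ := hy
  refine form_root H u hu a b hab k l x y ?_ ?_
  · rw [← hk]
    rfl
  · rw [← hl]
    rfl

/-- an eigenvalue exists iff the root subspace is nonzero -/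
lemma maxGen_ne_bot (u : End ℂ (Fin n → ℂ)) (c : ℂ) (x : Fin n → ℂ) (hx : x ≠ 0)
    (h : x ∈ u.maxGenEigenspace c) : u.HasEigenvalue c := by
  rw [Module.End.mem_maxGenEigenspace] at h
  obtain ⟨k, hk⟩ := h
  have h1 : x ∈ u.genEigenspace c k := by
    rw [Module.End.mem_genEigenspace_nat]
    exact hk
  have h2 : u.HasGenEigenvalue c k := by
    intro h3
    rw [h3] at h1
    exact hx ((Submodule.mem_bot ℂ).1 h1)
  exact Module.End.hasEigenvalue_of_hasGenEigenvalue h2

lemma intertwine (T f g : End ℂ (Fin n → ℂ)) (hT : T ≠ 0) (h : ∀ x, T (f x) = g (T x)) :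
    ∃ μ : ℂ, f.HasEigenvalue μ ∧ g.HasEigenvalue μ := by
  have h1 : ∃ μ : ℂ, ∃ x ∈ f.maxGenEigenspace μ, T x ≠ 0 := by
    by_contra hc
    push Not at hc
    apply hT
    have h2 : (⨆ μ : ℂ, f.maxGenEigenspace μ) ≤ LinearMap.ker T := by
      apply iSup_le
      intro μ x hx
      exact hc μ x hx
    rw [Module.End.iSup_maxGenEigenspace_eq_top] at h2
    exact LinearMap.ext fun x => h2 (Submodule.mem_top : x ∈ ⊤)
  obtain ⟨μ, x, hx, hTx⟩ := h1
  refine ⟨μ, maxGen_ne_bot f μ x (fun h0 => hTx (by rw [h0, map_zero])) hx, ?_⟩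
  apply maxGen_ne_bot g μ (T x) hTx
  rw [Module.End.mem_maxGenEigenspace] at hx ⊢
  obtain ⟨k, hk⟩ := hx
  refine ⟨k, ?_⟩
  have h3 : ∀ m : ℕ, ∀ y, ((g - μ • (1 : End ℂ (Fin n → ℂ))) ^ m) (T y) =
      T (((f - μ • (1 : End ℂ (Fin n → ℂ))) ^ m) y) := by
    intro m
    induction m with
    | zero => intro y; rfl
    | succ m ih =>
      intro y
      rw [pow_succ, Module.End.mul_apply, pow_succ, Module.End.mul_apply]
      have h4 : (g - μ • (1 : End ℂ (Fin n → ℂ))) (T y) =
          T ((f - μ • (1 : End ℂ (Fin n → ℂ))) y) := by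
        simp [h]
      rw [h4, ih]
  rw [h3, hk, map_zero]

/-- the spectrum of `H`-unitary matrices that commute with `X` and `X^[*]` -/
lemma spec_pair (X H U : Matrix (Fin n) (Fin n) ℂ) (hH : H.IsHermitian) (hdet : IsUnit H.det)
    (hX : ¬ IsDecomposable X H) (hU : adj H U * U = 1) (h1 : U * X = X * U)
    (h2 : U * adj H X = adj H X * U) (c e : ℂ)
    (hc : (op U).HasEigenvalue c) (he : (op U).HasEigenvalue e) :
    e = c ∨ star c * e = 1 := by
  by_contra hcon
  push Not at hcon
  obtain ⟨hec, hce⟩ := hcon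
  set u := op U with hu
  have hform : ∀ x y, form H (u x) (u y) = form H x y := by
    intro x y
    rw [hu, op_apply, op_apply, form_mulVec_left H hH hdet, Matrix.mulVec_mulVec, hU,
      Matrix.one_mulVec]
  have hc0 : c ≠ 0 := by
    rintro rfl
    obtain ⟨x, hx⟩ := hc.exists_hasEigenvector
    have h3 : u x = 0 := by rw [hx.apply_eq_smul, zero_smul]
    apply hx.2
    have h4 : (adj H U * U) *ᵥ x = 0 := by
      rw [← Matrix.mulVec_mulVec]
      have : U *ᵥ x = 0 := by rw [← op_apply]; exact h3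
      rw [this, Matrix.mulVec_zero]
    rwa [hU, Matrix.one_mulVec] at h4
  have hsc0 : star c ≠ 0 := star_ne_zero.2 hc0
  set c' : ℂ := (star c)⁻¹ with hc'
  have hsc' : star c' = c⁻¹ := by rw [hc', star_inv₀, star_star]
  set W := u.maxGenEigenspace c ⊔ u.maxGenEigenspace c' with hW
  apply hX
  have hcomm1 : Commute (op X) u := by
    change op X * op U = op U * op X
    rw [← op_mul, ← op_mul, h1]
  have hcomm2 : Commute (op (adj H X)) u := by
    change op (adj H X) * op U = op U * op (adj H X)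
    rw [← op_mul, ← op_mul, h2]
  have hinv : ∀ g : End ℂ (Fin n → ℂ), Commute g u → ∀ x ∈ W, g x ∈ W := by
    intro g hg x hx
    obtain ⟨y, hy, z, hz, rfl⟩ := Submodule.mem_sup.1 hx
    rw [map_add]
    exact Submodule.add_mem_sup (Module.End.mapsTo_maxGenEigenspace_of_comm hg.symm c hy)
      (Module.End.mapsTo_maxGenEigenspace_of_comm hg.symm c' hz)
  refine ⟨W, ?_, ?_, ?_, fun x hx => by
    rw [← op_apply]; exact hinv _ hcomm1 x hx, fun x hx => by
    rw [← op_apply]; exact hinv _ hcomm2 x hx⟩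
  · obtain ⟨x, hx⟩ := hc.exists_hasEigenvector
    intro h
    apply hx.2
    have h3 : x ∈ u.maxGenEigenspace c := by
      rw [Module.End.mem_maxGenEigenspace]
      refine ⟨1, ?_⟩
      rw [pow_one, LinearMap.sub_apply, LinearMap.smul_apply, Module.End.one_apply,
        hx.apply_eq_smul, sub_self]
    have h4 : x ∈ W := Submodule.mem_sup_left h3
    rw [h] at h4
    exact (Submodule.mem_bot ℂ).1 h4
  · intro h
    obtain ⟨x, hx⟩ := he.exists_hasEigenvector
    apply hx.2
    have h3 : x ∈ u.maxGenEigenspace e := by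
      rw [Module.End.mem_maxGenEigenspace]
      refine ⟨1, ?_⟩
      rw [pow_one, LinearMap.sub_apply, LinearMap.smul_apply, Module.End.one_apply,
        hx.apply_eq_smul, sub_self]
    have hind := u.independent_maxGenEigenspace
    have h4 : Disjoint (u.maxGenEigenspace e) W := by
      refine (hind e).mono_right ?_
      apply sup_le
      · exact le_iSup₂_of_le c (fun h => hec h.symm) le_rfl
      · refine le_iSup₂_of_le c' (fun h => hce ?_) le_rfl
        rw [← h, hc', mul_inv_cancel₀ hsc0]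
    rw [h, disjoint_top] at h4
    rw [h4] at h3
    exact (Submodule.mem_bot ℂ).1 h3
  · intro x hx hxy
    apply eq_zero_of_form H hdet
    obtain ⟨y, hy, z, hz, rfl⟩ := Submodule.mem_sup.1 hx
    intro w
    have hw : w ∈ (⨆ μ : ℂ, u.maxGenEigenspace μ) := by
      rw [Module.End.iSup_maxGenEigenspace_eq_top]
      exact Submodule.mem_top
    induction hw using Submodule.iSup_induction' with
    | mem μ w hw =>
      by_cases h3 : μ = c
      · exact hxy w (Submodule.mem_sup_left (h3 ▸ hw))
      by_cases h4 : μ = c'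
      · exact hxy w (Submodule.mem_sup_right (h4 ▸ hw))
      rw [form_add_left, form_maxGen H u hform c μ _ y w hy hw,
        form_maxGen H u hform c' μ _ z w hz hw, add_zero]
      · intro h5
        apply h3
        rw [hsc'] at h5
        field_simp at h5
        exact h5
      · intro h5
        apply h4
        rw [hc']
        exact eq_inv_of_mul_eq_one_right h5
    | zero => exact form_zero_right _ _
    | add a b _ _ ha hb => rw [form_add_right, ha, hb, add_zero]

/-- the main step -/
lemma eq_or_eq_neg (X H U A U' A' : Matrix (Fin n) (Fin n) ℂ) (hH : H.IsHermitian)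
    (hdet : IsUnit H.det) (hX : ¬ IsDecomposable X H) (h : IsCommutingPolar X H U A)
    (h' : IsCommutingPolar X H U' A') : A' = A ∨ A' = -A := by
  obtain ⟨hU, hA, hXU, hUA⟩ := h
  obtain ⟨hU', hA', hXU', hUA'⟩ := h'
  set V := adj H U with hV
  set V' := adj H U' with hV'
  have hUV : U * V = 1 := mul_eq_one_comm.1 hU
  have hUV' : U' * V' = 1 := mul_eq_one_comm.1 hU'
  have adj_mul : ∀ M N : Matrix (Fin n) (Fin n) ℂ, adj H (M * N) = adj H N * adj H M := by
    intro M N
    rw [adj, adj, adj, Matrix.conjTranspose_mul]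
    have : H * H⁻¹ = 1 := Matrix.mul_nonsing_inv _ hdet
    calc H⁻¹ * (Nᴴ * Mᴴ) * H = H⁻¹ * Nᴴ * 1 * Mᴴ * H := by simp only [mul_assoc, mul_one]
      _ = H⁻¹ * Nᴴ * (H * H⁻¹) * Mᴴ * H := by rw [this]
      _ = H⁻¹ * Nᴴ * H * (H⁻¹ * Mᴴ * H) := by simp only [mul_assoc]
  -- `V A = A V`
  have hVA : V * A = A * V := by
    calc V * A = V * A * (U * V) := by rw [hUV, mul_one]
      _ = V * (A * U) * V := by simp only [mul_assoc]
      _ = V * (U * A) * V := by rw [hUA]
      _ = V * U * A * V := by simp only [mul_assoc]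
      _ = A * V := by rw [hU, one_mul]
  have hVA' : V' * A' = A' * V' := by
    calc V' * A' = V' * A' * (U' * V') := by rw [hUV', mul_one]
      _ = V' * (A' * U') * V' := by simp only [mul_assoc]
      _ = V' * (U' * A') * V' := by rw [hUA']
      _ = V' * U' * A' * V' := by simp only [mul_assoc]
      _ = A' * V' := by rw [hU', one_mul]
  have hadjX : adj H X = A * V := by rw [hXU, adj_mul, hA]
  have hadjX' : adj H X = A' * V' := by rw [hXU', adj_mul, hA']
  have hc1 : U * X = X * U := by
    rw [hXU, mul_assoc U A U, ← hUA]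
  have hc2 : U * adj H X = adj H X * U := by
    rw [hadjX]
    calc U * (A * V) = (U * A) * V := by rw [mul_assoc]
      _ = A * (U * V) := by rw [hUA, mul_assoc]
      _ = A * (V * U) := by rw [hUV, hU]
      _ = A * V * U := by rw [mul_assoc]
  have hc1' : U' * X = X * U' := by
    rw [hXU', mul_assoc U' A' U', ← hUA']
  have hc2' : U' * adj H X = adj H X * U' := by
    rw [hadjX']
    calc U' * (A' * V') = (U' * A') * V' := by rw [mul_assoc]
      _ = A' * (U' * V') := by rw [hUA', mul_assoc]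
      _ = A' * (V' * U') := by rw [hUV', hU']
      _ = A' * V' * U' := by rw [mul_assoc]
  -- `A' = V' U A = U' V A`
  have e1 : A' = V' * (U * A) := by
    rw [← hXU, hXU', ← mul_assoc, hU', one_mul]
  have e2 : A' = U' * (V * A) := by
    have h3 : V * A = V' * A' := by rw [hVA, ← hadjX, hadjX', hVA']
    rw [h3, ← mul_assoc, hUV', one_mul]
  have hsq : U' * (U' * A) = U * (U * A) := by
    have h3 : U * A = U' * (U' * (V * A)) := by
      rw [← e2, e1, ← mul_assoc, hUV', one_mul]
    have h4 : U * A * U = U' * (U' * A) := by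
      calc U * A * U = U' * (U' * (V * A)) * U := by rw [← h3]
        _ = U' * (U' * (V * (A * U))) := by simp only [mul_assoc]
        _ = U' * (U' * (V * (U * A))) := by rw [hUA]
        _ = U' * (U' * ((V * U) * A)) := by simp only [mul_assoc]
        _ = U' * (U' * A) := by rw [hU, one_mul]
    rw [← h4, mul_assoc, ← hUA]
  by_cases hD : (U' - U) * A = 0
  · left
    have h3 : U' * A = U * A := by
      rw [sub_mul, sub_eq_zero] at hD
      exact hD
    rw [e2, hVA, ← mul_assoc, h3, hUA, mul_assoc, hUV, mul_one]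
  by_cases hS : (U' + U) * A = 0
  · right
    have h3 : U' * A = -(U * A) := by
      rw [add_mul] at hS
      exact eq_neg_of_add_eq_zero_left hS
    rw [e2, hVA, ← mul_assoc, h3, neg_mul, hUA, mul_assoc, hUV, mul_one]
  exfalso
  have iD : (U' - U) * A * U = -U' * ((U' - U) * A) := by
    calc (U' - U) * A * U = (U' - U) * (A * U) := by rw [mul_assoc]
      _ = (U' - U) * (U * A) := by rw [hUA]
      _ = U' * (U * A) - U * (U * A) := by rw [sub_mul]
      _ = U' * (U * A) - U' * (U' * A) := by rw [hsq]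
      _ = -U' * ((U' - U) * A) := by noncomm_ring
  have iS : (U' + U) * A * U = U' * ((U' + U) * A) := by
    calc (U' + U) * A * U = (U' + U) * (A * U) := by rw [mul_assoc]
      _ = (U' + U) * (U * A) := by rw [hUA]
      _ = U' * (U * A) + U * (U * A) := by rw [add_mul]
      _ = U' * (U * A) + U' * (U' * A) := by rw [hsq]
      _ = U' * ((U' + U) * A) := by noncomm_ring
  obtain ⟨μ, hμ, hμ'⟩ := intertwine (op ((U' - U) * A)) (op U) (op (-U'))
    (fun h0 => hD (op_eq_zero _ h0)) (fun x => by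
      rw [op_apply, op_apply, op_apply, op_apply, Matrix.mulVec_mulVec,
        Matrix.mulVec_mulVec, iD])
  obtain ⟨ν, hν, hν'⟩ := intertwine (op ((U' + U) * A)) (op U) (op U')
    (fun h0 => hS (op_eq_zero _ h0)) (fun x => by
      rw [op_apply, op_apply, op_apply, op_apply, Matrix.mulVec_mulVec,
        Matrix.mulVec_mulVec, iS])
  have hμ'' : (op U').HasEigenvalue (-μ) := by
    obtain ⟨x, hx⟩ := hμ'.exists_hasEigenvector
    refine Module.End.hasEigenvalue_of_hasEigenvector (x := x) ?_
    rw [Module.End.hasEigenvector_iff] at hx ⊢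
    refine ⟨?_, hx.2⟩
    rw [Module.End.mem_eigenspace_iff] at *
    have h3 := hx.1
    rw [op_apply, Matrix.neg_mulVec] at h3
    rw [op_apply, neg_smul, ← h3, neg_neg]
  have ne0 : ∀ W : Matrix (Fin n) (Fin n) ℂ, adj H W * W = 1 → ∀ c : ℂ,
      (op W).HasEigenvalue c → c ≠ 0 := by
    rintro W hW c hc rfl
    obtain ⟨x, hx⟩ := hc.exists_hasEigenvector
    apply hx.2
    have h3 : W *ᵥ x = 0 := by
      have := hx.apply_eq_smul
      rwa [zero_smul, op_apply] at this
    have h4 : (adj H W * W) *ᵥ x = 0 := by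
      rw [← Matrix.mulVec_mulVec, h3, Matrix.mulVec_zero]
    rwa [hW, Matrix.one_mulVec] at h4
  have hμ0 := ne0 U hU μ hμ
  have hpos : ∀ z : ℂ, star z * z ≠ -1 := by
    intro z hz
    have h3 : star z * z = ((Complex.normSq z : ℝ) : ℂ) := by
      rw [Complex.star_def, mul_comm, Complex.mul_conj]
    rw [h3] at hz
    have h4 : (Complex.normSq z : ℝ) = -1 := by exact_mod_cast hz
    have := Complex.normSq_nonneg z
    linarith
  rcases spec_pair X H U hH hdet hX hU hc1 hc2 μ ν hμ hν with h3 | h3 <;>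
  rcases spec_pair X H U' hH hdet hX hU' hc1' hc2' (-μ) ν hμ'' hν' with h4 | h4
  · apply hμ0
    rw [h3] at h4
    linear_combination h4 / 2
  · rw [h3, star_neg] at h4
    exact hpos μ (by linear_combination -h4)
  · rw [h4] at h3
    exact hpos μ (by linear_combination -h3)
  · rw [star_neg] at h4
    have h5 : (1 : ℂ) = -1 := by linear_combination -h4 - h3
    norm_num at h5

/-- Let `H` be Hermitian and nonsingular, `X ≠ 0` an `H`-indecomposable matrix that has at least one
`H`-polar decomposition with commuting factors. Then `CPD(X, H) = 2`: there are exactly two matrices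
`A` which occur as the `H`-selfadjoint factor of such a decomposition (and they are `A`, `-A`). -/
theorem result (n : ℕ) (H X : Matrix (Fin n) (Fin n) ℂ) (hH : H.IsHermitian) (hdet : IsUnit H.det)
    (hX0 : X ≠ 0) (hX : ¬ IsDecomposable X H) (hex : ∃ U A, IsCommutingPolar X H U A) :
    {A : Matrix (Fin n) (Fin n) ℂ | ∃ U, IsCommutingPolar X H U A}.encard = 2 ∧
    ∀ A ∈ {A : Matrix (Fin n) (Fin n) ℂ | ∃ U, IsCommutingPolar X H U A},
      {A : Matrix (Fin n) (Fin n) ℂ | ∃ U, IsCommutingPolar X H U A} = {A, -A} := by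
  have key : ∀ A ∈ {A : Matrix (Fin n) (Fin n) ℂ | ∃ U, IsCommutingPolar X H U A},
      {A : Matrix (Fin n) (Fin n) ℂ | ∃ U, IsCommutingPolar X H U A} = {A, -A} := by
    rintro A ⟨U, hUA⟩
    ext A'
    constructor
    · rintro ⟨U', h'⟩
      exact eq_or_eq_neg X H U A U' A' hH hdet hX hUA h'
    · rintro (rfl | rfl)
      · exact ⟨U, hUA⟩
      · obtain ⟨h1, h2, h3, h4⟩ := hUA
        refine ⟨-U, ?_, ?_, ?_, ?_⟩
        · have : adj H (-U) = -adj H U := by simp [adj]
          rw [this, neg_mul_neg, h1]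
        · have : adj H (-A) = -adj H A := by simp [adj]
          rw [this, h2]
        · rw [neg_mul_neg, h3]
        · rw [neg_mul_neg, neg_mul_neg, h4]
  refine ⟨?_, key⟩
  obtain ⟨U, A, hUA⟩ := hex
  rw [key A ⟨U, hUA⟩]
  apply Set.encard_pair
  intro h
  apply hX0
  have h2 : (2 : ℂ) • A = 0 := by
    rw [two_smul]
    nth_rewrite 1 [h]
    simp
  have h3 : A = 0 := (smul_eq_zero.1 h2).resolve_left two_ne_zero
  rw [hUA.2.2.1, h3, mul_zero]

end Pool.Agent.Results.MP_d7084b_al.CommutingFactorUnique
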